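import Pool.Agent.Helper20.EX3.Statements
import Pool.Agent.Helper62.EX.TB

/-!
# MP_2857a5_co : module CUT, cutting the giant components of the split forest
-/

set_option autoImplicit false

open Finset
open scoped Classical

namespace OT

noncomputable section

variable {n : ℕ}

/-! ### The recursion for `ce` -/

theorem cut_ce_top {T : PTree n} {Z : Finset (Fin n)} {i : Fin n}
    (h : (i : ℕ) = 0 ∨ (T.par i ∈ Z ∧ T.sg i = false)) : T.ce Z i = (i, false) := by
  rw [PTree.ce, dif_pos h]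

theorem cut_ce_own {T : PTree n} {Z : Finset (Fin n)} {i : Fin n}
    (h : ¬ ((i : ℕ) = 0 ∨ (T.par i ∈ Z ∧ T.sg i = false))) (h' : T.sg i = T.sg (T.par i)) :
    T.ce Z i = (T.par i, true) := by
  rw [PTree.ce, dif_neg h, if_pos h']

theorem cut_ce_up {T : PTree n} {Z : Finset (Fin n)} {i : Fin n}
    (h : ¬ ((i : ℕ) = 0 ∨ (T.par i ∈ Z ∧ T.sg i = false))) (h' : T.sg i ≠ T.sg (T.par i)) :
    T.ce Z i = T.ce Z (T.par i) := by
  rw [PTree.ce, dif_neg h, if_neg h']

theorem cut_ce0_own {T : PTree n} {i : Fin n} (h : (i : ℕ) ≠ 0)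
    (h' : T.sg i = T.sg (T.par i)) : T.ce ∅ i = (T.par i, true) :=
  cut_ce_own (by simpa using h) h'

theorem cut_ce0_up {T : PTree n} {i : Fin n} (h : (i : ℕ) ≠ 0)
    (h' : T.sg i ≠ T.sg (T.par i)) : T.ce ∅ i = T.ce ∅ (T.par i) :=
  cut_ce_up (by simpa using h) h'

theorem cut_chain (T : PTree n) (Z : Finset (Fin n)) : ∀ (k : ℕ) (i : Fin n), (i : ℕ) ≤ k →
    ∀ (t : Fin n) (β : Bool), T.ce Z i = (t, β) → T.Le t i ∧
      ∀ v, T.Le t v → T.Le v i → v ≠ t → T.ce Z v = (t, β) ∧ T.ce ∅ v = T.ce ∅ i := by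
  intro k
  induction k with
  | zero =>
    intro i hi t β h
    rw [cut_ce_top (Or.inl (by omega)), Prod.mk.injEq] at h
    obtain ⟨rfl, -⟩ := h
    exact ⟨PTree.Le.refl T _, fun v h1 h2 h3 => absurd (h2.antisymm h1) h3⟩
  | succ k ih =>
    intro i hi t β h
    by_cases h0 : (i : ℕ) = 0 ∨ (T.par i ∈ Z ∧ T.sg i = false)
    · rw [cut_ce_top h0, Prod.mk.injEq] at h
      obtain ⟨rfl, -⟩ := h
      exact ⟨PTree.Le.refl T _, fun v h1 h2 h3 => absurd (h2.antisymm h1) h3⟩
    · have hi0 : (i : ℕ) ≠ 0 := fun h => h0 (Or.inl h)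
      have hlt : (T.par i : ℕ) < (i : ℕ) := T.lt i hi0
      have hpi : T.Le (T.par i) i := PTree.le_iff.2 (Or.inr ⟨hi0, PTree.Le.refl T _⟩)
      by_cases h1 : T.sg i = T.sg (T.par i)
      · have h' := h
        rw [cut_ce_own h0 h1, Prod.mk.injEq] at h'
        obtain ⟨rfl, -⟩ := h'
        refine ⟨hpi, fun v h2 h3 h4 => ?_⟩
        rcases PTree.le_iff.1 h3 with rfl | ⟨_, h5⟩
        · exact ⟨h, rfl⟩
        · exact absurd (h5.antisymm h2) h4
      · have h' := h
        rw [cut_ce_up h0 h1] at h'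
        obtain ⟨h2, h3⟩ := ih (T.par i) (by omega) t β h'
        refine ⟨h2.trans hpi, fun v h4 h5 h6 => ?_⟩
        rcases PTree.le_iff.1 h5 with rfl | ⟨_, h7⟩
        · exact ⟨h, rfl⟩
        · obtain ⟨h8, h9⟩ := h3 v h4 h7 h6
          exact ⟨h8, h9.trans (cut_ce0_up hi0 h1).symm⟩

theorem cut_rel (T : PTree n) (Z : Finset (Fin n)) : ∀ (k : ℕ) (i : Fin n), (i : ℕ) ≤ k →
    T.ce Z i = T.ce ∅ i ∨ ∃ l : Fin n, T.ce Z i = (l, false) ∧ (l : ℕ) ≠ 0 ∧ T.par l ∈ Z ∧
      T.sg l = false ∧ T.ce ∅ l = T.ce ∅ i := by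
  intro k
  induction k with
  | zero =>
    intro i hi
    left
    rw [cut_ce_top (Or.inl (by omega)), cut_ce_top (Or.inl (by omega))]
  | succ k ih =>
    intro i hi
    by_cases hi0 : (i : ℕ) = 0
    · left
      rw [cut_ce_top (Or.inl hi0), cut_ce_top (Or.inl hi0)]
    · have hlt : (T.par i : ℕ) < (i : ℕ) := T.lt i hi0
      by_cases h0 : T.par i ∈ Z ∧ T.sg i = false
      · right
        exact ⟨i, cut_ce_top (Or.inr h0), hi0, h0.1, h0.2, rfl⟩
      · have h0' : ¬ ((i : ℕ) = 0 ∨ (T.par i ∈ Z ∧ T.sg i = false)) := by tauto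
        by_cases h1 : T.sg i = T.sg (T.par i)
        · left
          rw [cut_ce_own h0' h1, cut_ce0_own hi0 h1]
        · rw [cut_ce_up h0' h1, cut_ce0_up hi0 h1]
          exact ih (T.par i) (by omega)

theorem cut_ce0_false (T : PTree n) : ∀ (k : ℕ) (i : Fin n), (i : ℕ) ≤ k → ∀ l : Fin n,
    T.ce ∅ i = (l, false) → (l : ℕ) = 0 := by
  intro k
  induction k with
  | zero =>
    intro i hi l h
    rw [cut_ce_top (Or.inl (by omega)), Prod.mk.injEq] at h
    rw [← h.1]
    omega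
  | succ k ih =>
    intro i hi l h
    by_cases hi0 : (i : ℕ) = 0
    · rw [cut_ce_top (Or.inl hi0), Prod.mk.injEq] at h
      rw [← h.1]
      exact hi0
    · have hlt : (T.par i : ℕ) < (i : ℕ) := T.lt i hi0
      by_cases h1 : T.sg i = T.sg (T.par i)
      · rw [cut_ce0_own hi0 h1, Prod.mk.injEq] at h
        exact absurd h.2 (by simp)
      · rw [cut_ce0_up hi0 h1] at h
        exact ih (T.par i) (by omega) l h

theorem cut_piece (T : PTree n) (Γ : Finset (Fin n)) : ∀ (k : ℕ) (t : Fin n), (t : ℕ) ≤ k →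
    ∃ w, (w ∈ Γ ∨ (w : ℕ) = 0) ∧ T.Le w t ∧ ∀ u ∈ Γ, T.Le w u → T.Le u t → u = w := by
  intro k
  induction k with
  | zero =>
    intro t ht
    exact ⟨t, Or.inr (by omega), PTree.Le.refl T t, fun u _ h1 h2 => h2.antisymm h1⟩
  | succ k ih =>
    intro t ht
    by_cases h0 : t ∈ Γ ∨ (t : ℕ) = 0
    · exact ⟨t, h0, PTree.Le.refl T t, fun u _ h1 h2 => h2.antisymm h1⟩
    · have ht0 : (t : ℕ) ≠ 0 := fun h => h0 (Or.inr h)
      have htΓ : t ∉ Γ := fun h => h0 (Or.inl h)
      have hlt : (T.par t : ℕ) < (t : ℕ) := T.lt t ht0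
      obtain ⟨w, h1, h2, h3⟩ := ih (T.par t) (by omega)
      refine ⟨w, h1, h2.trans (PTree.le_iff.2 (Or.inr ⟨ht0, PTree.Le.refl T _⟩)), ?_⟩
      intro u hu h4 h5
      rcases PTree.le_iff.1 h5 with rfl | ⟨_, h6⟩
      · exact absurd hu htΓ
      · exact h3 u hu h4 h6

theorem cut_next {T : PTree n} {w i : Fin n} (h : T.Le w i) (hne : i ≠ w) :
    ∃ l : Fin n, (l : ℕ) ≠ 0 ∧ T.par l = w ∧ T.Le l i := by
  rcases Relation.ReflTransGen.cases_head h with h1 | ⟨c, hc, h1⟩
  · exact absurd h1.symm hne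
  · exact ⟨c, hc.1, hc.2, h1⟩

/-- The size of a component of the split forest. -/
def cutSize (T : PTree n) (q : Fin n × Bool) : ℕ := (univ.filter fun i => T.ce ∅ i = q).card

theorem cut_par_nb {T : PTree n} {i : Fin n} (hi : (i : ℕ) ≠ 0) : T.Nb (T.par i) i :=
  Or.inl ⟨hi, rfl⟩

theorem cut_core (T : PTree n) (d : ℕ) (c : ℝ) (G Γ : Finset (Fin n))
    (hG : ∀ j, j ∈ G ↔ c ≤ (cutSize T (j, true) : ℝ))
    (hfar : ∀ w ∈ Γ, ∀ m, (m ∈ G ∨ (m : ℕ) = 0) → w ∉ T.ball (d + 3) m)
    (hsep : ∀ w ∈ Γ, ∀ w' ∈ Γ, w ≠ w' → w' ∉ T.ball (d + 3) w)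
    (hpt : ∀ w, (w ∈ Γ ∨ (w : ℕ) = 0) → ((T.PTop Γ w).card : ℝ) ≤ c) :
    ∃ Z : Finset (Fin n), Z.card ≤ Γ.card ∧
    (∀ z ∈ Z, (z : ℕ) ≠ 0 ∧ T.sg z = true ∧ (T.par z : ℕ) ≠ 0 ∧ T.sg (T.par z) = false) ∧
    (∀ y ∈ Z, ∀ z ∈ Z, y ≠ z → z ∉ T.ball d y) ∧
    (∀ z ∈ Z, ∀ g, (g ∈ G ∨ (g : ℕ) = 0) → g ∉ T.ball d z) ∧
    (∀ z ∈ Z, ∀ j, T.ce Z (T.par z) = (j, true) → j ∈ G) ∧
    (∀ q, ((univ.filter fun i => i ∉ Z ∧ T.ce Z i = q).card : ℝ) ≤ c) ∧
    (∀ l, (∃ z ∈ Z, ∃ i ∈ T.ball 1 z, T.ce Z l = (i, true)) →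
      ∃ z ∈ Z, ∃ i ∈ T.ball 1 z, T.ce ∅ l = (i, true) ∧ (cutSize T (i, true) : ℝ) < c) := by
  -- giant vertices of `Γ`
  set Γ' : Finset (Fin n) := Γ.filter fun w => c ≤ (cutSize T (T.ce ∅ w) : ℝ) with hΓ'
  set zz : Fin n → Fin n := fun w => if T.sg w = true then w else T.par w with hzz
  have hw0 : ∀ w ∈ Γ, (w : ℕ) ≠ 0 := by
    intro w hw h0
    exact hfar w hw w (Or.inr h0) (PTree.self_mem_ball T _ w)
  have hwp0 : ∀ w ∈ Γ, (T.par w : ℕ) ≠ 0 := by
    intro w hw h0
    apply hfar w hw (T.par w) (Or.inr h0)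
    exact PTree.ball_mono T (by omega) _ ((cut_par_nb (hw0 w hw)).mem_ball)
  have hwpp0 : ∀ w ∈ Γ, (T.par (T.par w) : ℕ) ≠ 0 := by
    intro w hw h0
    apply hfar w hw (T.par (T.par w)) (Or.inr h0)
    have h1 := (cut_par_nb (T := T) (hwp0 w hw)).mem_ball
    have h2 := (cut_par_nb (T := T) (hw0 w hw)).mem_ball
    exact PTree.ball_mono T (by omega) _ (PTree.ball_trans h1 h2)
  have hA : ∀ w ∈ Γ', (zz w : ℕ) ≠ 0 ∧ T.sg (zz w) = true ∧ (T.par (zz w) : ℕ) ≠ 0 ∧
      T.sg (T.par (zz w)) = false ∧ T.ce ∅ (T.par (zz w)) = T.ce ∅ w := by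
    intro w hw
    obtain ⟨hwΓ, hwg⟩ := mem_filter.1 hw
    have hne : T.sg w ≠ T.sg (T.par w) := by
      intro h
      rw [cut_ce0_own (hw0 w hwΓ) h] at hwg
      apply hfar w hwΓ (T.par w) (Or.inl ((hG _).2 hwg))
      exact PTree.ball_mono T (by omega) _ ((cut_par_nb (hw0 w hwΓ)).mem_ball)
    have hup := cut_ce0_up (hw0 w hwΓ) hne
    by_cases hs : T.sg w = true
    · have hz : zz w = w := if_pos hs
      rw [hz]
      refine ⟨hw0 w hwΓ, hs, hwp0 w hwΓ, ?_, hup.symm⟩
      rw [hs] at hne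
      simpa using hne.symm
    · have hz : zz w = T.par w := if_neg hs
      have hs' : T.sg w = false := by simpa using hs
      rw [hz]
      rw [hs'] at hne
      have hpt' : T.sg (T.par w) = true := by simpa using hne.symm
      have hne2 : T.sg (T.par w) ≠ T.sg (T.par (T.par w)) := by
        intro h
        rw [hup, cut_ce0_own (hwp0 w hwΓ) h] at hwg
        apply hfar w hwΓ (T.par (T.par w)) (Or.inl ((hG _).2 hwg))
        have h1 := (cut_par_nb (T := T) (hwp0 w hwΓ)).mem_ball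
        have h2 := (cut_par_nb (T := T) (hw0 w hwΓ)).mem_ball
        exact PTree.ball_mono T (by omega) _ (PTree.ball_trans h1 h2)
      have hup2 := cut_ce0_up (hwp0 w hwΓ) hne2
      refine ⟨hwp0 w hwΓ, hpt', hwpp0 w hwΓ, ?_, ?_⟩
      · rw [hpt'] at hne2
        simpa using hne2.symm
      · rw [← hup2, ← hup]
  have hzball : ∀ w ∈ Γ, zz w ∈ T.ball 1 w := by
    intro w hw
    by_cases hs : T.sg w = true
    · have hz : zz w = w := if_pos hs
      rw [hz]
      exact PTree.self_mem_ball T 1 w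
    · have hz : zz w = T.par w := if_neg hs
      rw [hz]
      exact (cut_par_nb (hw0 w hw)).symm.mem_ball
  refine ⟨Γ'.image zz, card_image_le.trans (card_le_card (filter_subset _ _)), ?_, ?_, ?_, ?_, ?_,
    ?_⟩
  · intro z hz
    obtain ⟨w, hw, rfl⟩ := mem_image.1 hz
    obtain ⟨h1, h2, h3, h4, -⟩ := hA w hw
    exact ⟨h1, h2, h3, h4⟩
  · intro y hy z hz hne hmem
    obtain ⟨w, hw, rfl⟩ := mem_image.1 hy
    obtain ⟨w', hw', rfl⟩ := mem_image.1 hz
    have hww : w ≠ w' := fun h => hne (by rw [h])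
    have hwΓ := (mem_filter.1 hw).1
    have hwΓ' := (mem_filter.1 hw').1
    apply hsep w hwΓ w' hwΓ' hww
    have h1 := PTree.ball_trans (hzball w hwΓ) hmem
    have h2 := PTree.ball_trans h1 (PTree.mem_ball_comm.1 (hzball w' hwΓ'))
    exact PTree.ball_mono T (by omega) _ h2
  · intro z hz g hg hmem
    obtain ⟨w, hw, rfl⟩ := mem_image.1 hz
    have hwΓ := (mem_filter.1 hw).1
    apply hfar w hwΓ g hg
    have h1 := PTree.ball_trans (hzball w hwΓ) hmem
    exact PTree.ball_mono T (by omega) _ (PTree.mem_ball_comm.1 h1)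
  · intro z hz j hj
    obtain ⟨w, hw, rfl⟩ := mem_image.1 hz
    obtain ⟨-, -, -, -, h5⟩ := hA w hw
    have hwg := (mem_filter.1 hw).2
    rcases cut_rel T (Γ'.image zz) _ (T.par (zz w)) le_rfl with h | ⟨l, h, -⟩
    · rw [hG, ← hj, h, h5]
      exact hwg
    · rw [hj, Prod.mk.injEq] at h
      exact absurd h.2 (by simp)
  · intro q
    set Z := Γ'.image zz with hZ
    have hZmem : ∀ w ∈ Γ', zz w ∈ Z := fun w hw => mem_image_of_mem _ hw
    by_cases hcase : ∃ i, i ∉ Z ∧ T.ce Z i = q ∧ (cutSize T (T.ce ∅ i) : ℝ) < c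
    · obtain ⟨i, hiZ, hiq, hic⟩ := hcase
      have hi0 : T.ce ∅ i = q := by
        rcases cut_rel T Z _ i le_rfl with h | ⟨l, h, hl0, hlZ, hls, hle⟩
        · rw [← h]
          exact hiq
        · exfalso
          -- `ce0 l` is giant
          obtain ⟨w, hw, hwl⟩ := mem_image.1 hlZ
          obtain ⟨-, h2, -, h4, h5⟩ := hA w hw
          have h6 : T.ce ∅ l = T.ce ∅ (T.par l) := by
            apply cut_ce0_up hl0
            rw [← hwl, h2, hls]
            simp
          have h7 : T.ce ∅ (T.par l) = T.ce ∅ (T.par (T.par l)) := by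
            apply cut_ce0_up
            · rw [← hwl]
              exact (hA w hw).1
            · rw [← hwl, h2, h4]
              simp
          rw [← hle, h6, h7, ← hwl, h5] at hic
          exact absurd (mem_filter.1 hw).2 (not_le.2 hic)
      rw [hi0] at hic
      refine le_trans ?_ hic.le
      unfold cutSize
      have hsub : (univ.filter fun i => i ∉ Z ∧ T.ce Z i = q) ⊆
          (univ.filter fun i => T.ce ∅ i = q) := by
        intro x hx
        rw [mem_filter] at hx ⊢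
        refine ⟨mem_univ _, ?_⟩
        rcases cut_rel T Z _ x le_rfl with h | ⟨l, h, hl0, -, -, -⟩
        · rw [← h]
          exact hx.2.2
        · exfalso
          rw [hx.2.2, ← hi0] at h
          exact hl0 (cut_ce0_false T _ i le_rfl l h)
      exact_mod_cast card_le_card hsub
    · push Not at hcase
      obtain ⟨t, β⟩ := q
      obtain ⟨w₀, hw₀, hw₀t, hw₀u⟩ := cut_piece T Γ _ t le_rfl
      refine le_trans ?_ (hpt w₀ hw₀)
      have hsub : (univ.filter fun i => i ∉ Z ∧ T.ce Z i = (t, β)) ⊆ T.PTop Γ w₀ := by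
        intro i hi
        obtain ⟨-, hiZ, hiq⟩ := mem_filter.1 hi
        have hig := hcase i hiZ hiq
        obtain ⟨hti, hch⟩ := cut_chain T Z _ i le_rfl t β hiq
        -- no vertex of `Γ` strictly below `t` and above `i`
        have hno : ∀ w ∈ Γ, T.Le t w → T.Le w i → w = t := by
          intro w hw htw hwi
          by_contra hwt
          obtain ⟨h1, h2⟩ := hch w htw hwi hwt
          have hwΓ' : w ∈ Γ' := mem_filter.2 ⟨hw, by rw [h2]; exact hig⟩
          have hzw := hZmem w hwΓ'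
          by_cases hs : T.sg w = true
          · have hz : zz w = w := if_pos hs
            rw [hz] at hzw
            have hiw : i ≠ w := fun h => hiZ (h ▸ hzw)
            obtain ⟨l, hl0, hlp, hli⟩ := cut_next hwi hiw
            have hwl : T.Le w l := PTree.le_iff.2 (Or.inr ⟨hl0, by rw [hlp]; exact PTree.Le.refl T w⟩)
            have hlt : l ≠ t := by
              intro h
              rw [h] at hwl
              exact hwt (hwl.antisymm htw)
            obtain ⟨h3, h4⟩ := hch l (htw.trans hwl) hli hlt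
            have hls : T.sg l = false := by
              by_contra hls
              have hls' : T.sg l = true := by simpa using hls
              have h5 : T.ce ∅ l = (w, true) := by
                rw [← hlp]
                apply cut_ce0_own hl0
                rw [hlp, hls', hs]
              rw [← h4, h5] at hig
              exact hfar w hw w (Or.inl ((hG w).2 hig)) (PTree.self_mem_ball T _ w)
            have h6 : T.ce Z l = (l, false) := cut_ce_top (Or.inr ⟨by rw [hlp]; exact hzw, hls⟩)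
            rw [h6, Prod.mk.injEq] at h3
            exact hlt h3.1
          · have hz : zz w = T.par w := if_neg hs
            rw [hz] at hzw
            have hs' : T.sg w = false := by simpa using hs
            have h6 : T.ce Z w = (w, false) := cut_ce_top (Or.inr ⟨hzw, hs'⟩)
            rw [h6, Prod.mk.injEq] at h1
            exact hwt h1.1
        unfold PTree.PTop
        rw [mem_filter, PTree.mem_sub]
        refine ⟨hw₀t.trans hti, fun u hu1 hu2 hu3 => ?_⟩
        rw [PTree.mem_sub] at hu1 hu2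
        rcases PTree.Le.total hu2 hti with h1 | h1
        · exact hw₀u u hu3 hu1 h1
        · have := hno u hu3 h1 hu2
          subst this
          exact hw₀u u hu3 hu1 (PTree.Le.refl T u)
      exact_mod_cast card_le_card hsub
  · rintro l ⟨z, hz, i, hi, hl⟩
    refine ⟨z, hz, i, hi, ?_, ?_⟩
    · rcases cut_rel T (Γ'.image zz) _ l le_rfl with h | ⟨l', h, -⟩
      · rw [← h]
        exact hl
      · rw [hl, Prod.mk.injEq] at h
        exact absurd h.2 (by simp)
    · obtain ⟨w, hw, rfl⟩ := mem_image.1 hz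
      have hwΓ := (mem_filter.1 hw).1
      by_contra hbig
      push Not at hbig
      apply hfar w hwΓ i (Or.inl ((hG i).2 hbig))
      have h1 := PTree.ball_trans (hzball w hwΓ) hi
      exact PTree.ball_mono T (by omega) _ (PTree.mem_ball_comm.1 h1)

/-- Few giant components. -/
theorem cut_giant (T : PTree n) (c : ℝ) (G : Finset (Fin n))
    (hG : ∀ j ∈ G, c ≤ (cutSize T (j, true) : ℝ)) : (G.card : ℝ) * c ≤ n := by
  have h1 : ((G.biUnion fun j => univ.filter fun i => T.ce ∅ i = (j, true)).card : ℝ) ≤ n := by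
    have := card_le_univ (G.biUnion fun j => univ.filter fun i => T.ce ∅ i = (j, true))
    rw [Fintype.card_fin] at this
    exact_mod_cast this
  rw [card_biUnion] at h1
  · have h2 : ∑ j ∈ G, c ≤ ∑ j ∈ G, (cutSize T (j, true) : ℝ) := sum_le_sum hG
    rw [sum_const, nsmul_eq_mul] at h2
    refine h2.trans ?_
    unfold cutSize
    push_cast at h1
    exact h1
  · intro j _ j' _ hne
    refine disjoint_left.2 ?_
    intro x hx hx'
    rw [mem_filter] at hx hx'
    have h3 := hx.2.symm.trans hx'.2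
    rw [Prod.mk.injEq] at h3
    exact hne h3.1

/-- Module CUT. -/
theorem x3_cut (h : StSCL) : StCut := by
  intro Δ d δ η hδ hη
  choose M N hMN using h Δ (d + 3)
  -- constants for one scale
  set M' : ℝ → ℕ := fun x => if hx : 0 < x then M x (⌈1 / x⌉₊) hx else 0 with hM'
  set N' : ℝ → ℕ := fun x => if hx : 0 < x then N x (⌈1 / x⌉₊) hx else 0 with hN'
  obtain ⟨δs, hδ0, hδs⟩ : ∃ δs : ℕ → ℝ, δs 0 = δ ∧
      ∀ s, δs (s + 1) = min (δs s) (η / (4 * (Δ + 2) * (M' (δs s) + 1))) :=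
    ⟨fun s => Nat.rec δ (fun _ x => min x (η / (4 * (Δ + 2) * (M' x + 1)))) s, rfl, fun _ => rfl⟩
  have hpos : ∀ s, 0 < δs s := by
    intro s
    induction s with
    | zero => rw [hδ0]; exact hδ
    | succ s ih =>
      rw [hδs]
      exact lt_min ih (by positivity)
  have hanti : Antitone δs := antitone_nat_of_succ_le fun s => by
    rw [hδs]
    exact min_le_left _ _
  have hle : ∀ s, δs s ≤ δ := fun s => by
    rw [← hδ0]
    exact hanti (Nat.zero_le s)
  obtain ⟨S, hS⟩ := exists_nat_ge (2 / η)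
  refine ⟨∑ s ∈ range (S + 1), ((M' (δs s) : ℝ) + 1 / δs s), ∑ s ∈ range (S + 1), N' (δs s) + 1,
    fun n T hn hΔ => ?_⟩
  have hn0 : 0 < n := by omega
  have hnR : (0 : ℝ) < n := by exact_mod_cast hn0
  -- pigeonhole
  obtain ⟨s, hsS, hs⟩ : ∃ s < S + 1, ((univ.filter fun i : Fin n =>
      δs (s + 1) * (n : ℝ) ≤ (cutSize T (T.ce ∅ i) : ℝ) ∧
      (cutSize T (T.ce ∅ i) : ℝ) < δs s * (n : ℝ)).card : ℝ) ≤ η / 2 * n := by
    by_contra hcon
    push Not at hcon
    have h1 : ∑ s ∈ range (S + 1), (univ.filter fun i : Fin n =>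
        δs (s + 1) * (n : ℝ) ≤ (cutSize T (T.ce ∅ i) : ℝ) ∧
        (cutSize T (T.ce ∅ i) : ℝ) < δs s * (n : ℝ)).card ≤ n := by
      rw [← card_biUnion]
      · have := card_le_univ ((range (S + 1)).biUnion fun s => univ.filter fun i : Fin n =>
          δs (s + 1) * (n : ℝ) ≤ (cutSize T (T.ce ∅ i) : ℝ) ∧
          (cutSize T (T.ce ∅ i) : ℝ) < δs s * (n : ℝ))
        rwa [Fintype.card_fin] at this
      · have haux : ∀ a b : ℕ, a < b → ∀ x : ℝ, δs (a + 1) * (n : ℝ) ≤ x →
            x < δs b * (n : ℝ) → False := by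
          intro a b hab x h1 h2
          have h3 : δs b ≤ δs (a + 1) := hanti (by omega)
          have h4 : δs b * (n : ℝ) ≤ δs (a + 1) * (n : ℝ) := by gcongr
          linarith
        intro a _ b _ hab
        refine disjoint_left.2 ?_
        intro i hi hi'
        rw [mem_filter] at hi hi'
        rcases lt_or_gt_of_ne hab with h1 | h1
        · exact haux a b h1 _ hi.2.1 hi'.2.2
        · exact haux b a h1 _ hi'.2.1 hi.2.2
    have h2 : ∑ s ∈ range (S + 1), (η / 2 * (n : ℝ)) < n := by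
      have h3 : ∑ s ∈ range (S + 1), (η / 2 * (n : ℝ)) < ∑ s ∈ range (S + 1),
          ((univ.filter fun i : Fin n =>
            δs (s + 1) * (n : ℝ) ≤ (cutSize T (T.ce ∅ i) : ℝ) ∧
            (cutSize T (T.ce ∅ i) : ℝ) < δs s * (n : ℝ)).card : ℝ) := by
        apply sum_lt_sum_of_nonempty (by simp)
        intro s hs
        exact hcon s (mem_range.1 hs)
      refine h3.trans_le ?_
      exact_mod_cast h1
    rw [sum_const, card_range, nsmul_eq_mul] at h2
    have h3 : 2 ≤ (S : ℝ) * η := by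
      rw [div_le_iff₀ hη] at hS
      exact hS
    push_cast at h2
    have h4 : 1 ≤ ((S : ℝ) + 1) * (η / 2) := by nlinarith
    nlinarith
  set c : ℝ := δs s * (n : ℝ) with hc
  have hcpos : 0 < c := mul_pos (hpos s) hnR
  set G : Finset (Fin n) := univ.filter fun j => c ≤ (cutSize T (j, true) : ℝ) with hG
  have hGmem : ∀ j, j ∈ G ↔ c ≤ (cutSize T (j, true) : ℝ) := by
    intro j
    rw [hG, mem_filter]
    simp
  have hGc : (G.card : ℝ) ≤ 1 / δs s := by
    have h1 := cut_giant T c G (fun j hj => (hGmem j).1 hj)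
    rw [le_div_iff₀ (hpos s)]
    have h2 : (G.card : ℝ) * δs s * n ≤ 1 * n := by
      rw [one_mul]
      calc (G.card : ℝ) * δs s * n = (G.card : ℝ) * c := by rw [hc]; ring
        _ ≤ n := h1
    exact le_of_mul_le_mul_right h2 hnR
  have hGc' : G.card ≤ ⌈1 / δs s⌉₊ := by
    have := hGc.trans (Nat.le_ceil _)
    exact_mod_cast this
  have hM'eq : M' (δs s) = M (δs s) (⌈1 / δs s⌉₊) (hpos s) := dif_pos (hpos s)
  have hN'eq : N' (δs s) = N (δs s) (⌈1 / δs s⌉₊) (hpos s) := dif_pos (hpos s)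
  have hNn : N (δs s) (⌈1 / δs s⌉₊) (hpos s) ≤ n := by
    rw [← hN'eq]
    have : N' (δs s) ≤ ∑ s ∈ range (S + 1), N' (δs s) :=
      single_le_sum (f := fun s => N' (δs s)) (fun _ _ => Nat.zero_le _) (mem_range.2 hsS)
    omega
  obtain ⟨Γ, hΓc, hΓf, hΓs, hΓp⟩ := hMN (δs s) (⌈1 / δs s⌉₊) (hpos s) n T hNn hΔ G hGc'
  obtain ⟨Z, hZc, h3, h4, h5, h6, h7, h8⟩ := cut_core T d c G Γ hGmem hΓf hΓs hΓp
  have hterm : (M' (δs s) : ℝ) + 1 / δs s ≤
      ∑ s ∈ range (S + 1), ((M' (δs s) : ℝ) + 1 / δs s) := by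
    apply single_le_sum (f := fun s => (M' (δs s) : ℝ) + 1 / δs s) _ (mem_range.2 hsS)
    intro s _
    have := hpos s
    positivity
  have hZM : (Z.card : ℝ) ≤ M' (δs s) := by
    rw [hM'eq]
    exact_mod_cast hZc.trans hΓc
  have hdpos : (0 : ℝ) < 1 / δs s := one_div_pos.2 (hpos s)
  have hMnn : (0 : ℝ) ≤ M' (δs s) := Nat.cast_nonneg _
  refine ⟨Z, G, by linarith, by linarith, h3, h4, h5, h6, ?_, ?_⟩
  · intro q
    refine (h7 q).trans ?_
    rw [hc]
    have := hle s
    gcongr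
  · -- the last item
    set A : Finset (Fin n) := univ.filter fun i : Fin n =>
      δs (s + 1) * (n : ℝ) ≤ (cutSize T (T.ce ∅ i) : ℝ) ∧ (cutSize T (T.ce ∅ i) : ℝ) < c with hA
    set B : Finset (Fin n) := (Z.biUnion (T.ball 1)).filter fun i =>
      (cutSize T (i, true) : ℝ) < δs (s + 1) * n with hB
    have hsub : (univ.filter fun l => ∃ z ∈ Z, ∃ i ∈ T.ball 1 z, T.ce Z l = (i, true)) ⊆
        A ∪ B.biUnion fun i => univ.filter fun l => T.ce ∅ l = (i, true) := by
      intro l hl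
      obtain ⟨z, hz, i, hi, hli, hlt⟩ := h8 l (mem_filter.1 hl).2
      rw [mem_union]
      by_cases hmed : δs (s + 1) * (n : ℝ) ≤ (cutSize T (i, true) : ℝ)
      · left
        rw [hA, mem_filter, hli]
        exact ⟨mem_univ _, hmed, hlt⟩
      · right
        rw [mem_biUnion]
        refine ⟨i, ?_, mem_filter.2 ⟨mem_univ _, hli⟩⟩
        rw [hB, mem_filter]
        exact ⟨mem_biUnion.2 ⟨z, hz, hi⟩, not_le.1 hmed⟩
    have hBc : (B.card : ℝ) ≤ M' (δs s) * (Δ + 2) := by
      have h1 : B.card ≤ Z.card * (Δ + 2) ^ 1 :=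
        (card_le_card (filter_subset _ _)).trans
          (card_biUnion_le_card_mul _ _ _ fun z _ => PTree.card_ball T hΔ 1 z)
      rw [pow_one] at h1
      have h2 : (B.card : ℝ) ≤ Z.card * (Δ + 2) := by exact_mod_cast h1
      refine h2.trans ?_
      gcongr
    have hBu : ((B.biUnion fun i => univ.filter fun l => T.ce ∅ l = (i, true)).card : ℝ) ≤
        B.card * (δs (s + 1) * n) := by
      have h1 : ((B.biUnion fun i => univ.filter fun l => T.ce ∅ l = (i, true)).card : ℝ) ≤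
          ∑ i ∈ B, ((univ.filter fun l => T.ce ∅ l = (i, true)).card : ℝ) := by
        exact_mod_cast card_biUnion_le
      refine h1.trans ?_
      have h2 : ∑ i ∈ B, ((univ.filter fun l => T.ce ∅ l = (i, true)).card : ℝ) ≤
          ∑ i ∈ B, (δs (s + 1) * n) := by
        apply sum_le_sum
        intro i hi
        exact (mem_filter.1 hi).2.le
      rwa [sum_const, nsmul_eq_mul] at h2
    have hd : δs (s + 1) ≤ η / (4 * (Δ + 2) * (M' (δs s) + 1)) := by
      rw [hδs]
      exact min_le_right _ _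
    have hfin : (B.card : ℝ) * (δs (s + 1) * n) ≤ η / 2 * n := by
      have hΔ2 : (0 : ℝ) < Δ + 2 := by positivity
      calc (B.card : ℝ) * (δs (s + 1) * n)
          ≤ (M' (δs s) * (Δ + 2)) * (η / (4 * (Δ + 2) * (M' (δs s) + 1)) * n) := by
            have := (hpos (s + 1)).le
            gcongr
        _ = (M' (δs s) / (M' (δs s) + 1)) * (η / 4) * n := by
            field_simp
        _ ≤ 1 * (η / 4) * n := by
            gcongr
            rw [div_le_one (by positivity)]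
            linarith
        _ ≤ η / 2 * n := by
            rw [one_mul]
            gcongr
            norm_num
    have h1 : ((univ.filter fun l => ∃ z ∈ Z, ∃ i ∈ T.ball 1 z, T.ce Z l = (i, true)).card : ℝ) ≤
        (A.card : ℝ) + ((B.biUnion fun i => univ.filter fun l => T.ce ∅ l = (i, true)).card : ℝ)
        := by
      exact_mod_cast (card_le_card hsub).trans (card_union_le _ _)
    linarith

end

end OT
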