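import Pool.Agent.Helper20.EX3.Statements
import Pool.Agent.Helper36.EX.DL

/-!
# MP_2857a5_co : module SCL, separated cuts into small pieces
-/

set_option autoImplicit false

open Finset
open scoped Classical

namespace OT

noncomputable section

variable {n : ℕ}

theorem scl_mem_ptop {T : PTree n} {Γ : Finset (Fin n)} {w v : Fin n} :
    v ∈ T.PTop Γ w ↔ T.Le w v ∧ ∀ u, T.Le w u → T.Le u v → u ∈ Γ → u = w := by
  unfold PTree.PTop
  rw [mem_filter, PTree.mem_sub]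
  simp only [PTree.mem_sub]

/-- `w` is the root or in `Γ`. -/
def SclTop (Γ : Finset (Fin n)) (w : Fin n) : Prop := w ∈ Γ ∨ (w : ℕ) = 0

theorem scl_ne_root {T : PTree n} {w t : Fin n} (h : T.Le w t) (hne : t ≠ w) : (t : ℕ) ≠ 0 := by
  intro h0
  have := h.le
  apply hne
  apply Fin.ext
  have h1 : (w : ℕ) ≤ (t : ℕ) := this
  omega

theorem scl_top_mem {T : PTree n} {Γ : Finset (Fin n)} {w t v₀ : Fin n} (htw : T.Le w t)
    (hv : v₀ ∈ T.PTop Γ w) (hv' : T.Le t v₀) : t ∈ T.PTop Γ w := by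
  rw [scl_mem_ptop] at hv ⊢
  exact ⟨htw, fun u h1 h2 h3 => hv.2 u h1 (h2.trans hv') h3⟩

theorem scl_ptop_w {T : PTree n} {Γ : Finset (Fin n)} {w t : Fin n} (htw : T.Le w t)
    (hne : t ≠ w) : T.PTop (insert t Γ) w = T.PTop Γ w \ T.sub t := by
  ext v
  rw [mem_sdiff, scl_mem_ptop, scl_mem_ptop, PTree.mem_sub]
  constructor
  · rintro ⟨h1, h2⟩
    refine ⟨⟨h1, fun u h3 h4 h5 => h2 u h3 h4 (mem_insert_of_mem h5)⟩, fun h3 => ?_⟩
    exact hne (h2 t htw h3 (mem_insert_self _ _))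
  · rintro ⟨⟨h1, h2⟩, h3⟩
    refine ⟨h1, fun u h4 h5 h6 => ?_⟩
    rcases mem_insert.1 h6 with rfl | h6
    · exact absurd h5 h3
    · exact h2 u h4 h5 h6

theorem scl_ptop_t {T : PTree n} {Γ : Finset (Fin n)} {w t : Fin n} (htw : T.Le w t)
    (hne : t ≠ w) (htΓ : t ∉ Γ) (htQ : t ∈ T.PTop Γ w) :
    T.PTop (insert t Γ) t = T.PTop Γ w ∩ T.sub t := by
  ext v
  rw [mem_inter, scl_mem_ptop, scl_mem_ptop, PTree.mem_sub]
  constructor
  · rintro ⟨h1, h2⟩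
    refine ⟨⟨htw.trans h1, fun u h3 h4 h5 => ?_⟩, h1⟩
    rcases PTree.Le.total h4 h1 with h6 | h6
    · exact (scl_mem_ptop.1 htQ).2 u h3 h6 h5
    · have := h2 u h6 h4 (mem_insert_of_mem h5)
      subst this
      exact absurd h5 htΓ
  · rintro ⟨⟨h1, h2⟩, h3⟩
    refine ⟨h3, fun u h4 h5 h6 => ?_⟩
    rcases mem_insert.1 h6 with h6 | h6
    · exact h6
    · have := h2 u (htw.trans h4) h5 h6
      subst this
      exact absurd (h4.antisymm htw) hne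

theorem scl_ptop_other {T : PTree n} {Γ : Finset (Fin n)} {w w' t : Fin n} (htw : T.Le w t)
    (htΓ : ¬ SclTop Γ t) (htQ : t ∈ T.PTop Γ w) (hw : SclTop Γ w) (hw' : SclTop Γ w')
    (hne' : w' ≠ w) : T.PTop (insert t Γ) w' = T.PTop Γ w' := by
  ext v
  rw [scl_mem_ptop, scl_mem_ptop]
  constructor
  · rintro ⟨h1, h2⟩
    exact ⟨h1, fun u h3 h4 h5 => h2 u h3 h4 (mem_insert_of_mem h5)⟩
  · rintro ⟨h1, h2⟩
    refine ⟨h1, fun u h3 h4 h5 => ?_⟩
    rcases mem_insert.1 h5 with rfl | h5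
    · exfalso
      rcases PTree.Le.total htw h3 with h6 | h6
      · -- w ≤ w' ≤ t
        have hw'Γ : w' ∈ Γ := by
          rcases hw' with h | h
          · exact h
          · exact absurd h (scl_ne_root h6 hne')
        exact hne' ((scl_mem_ptop.1 htQ).2 w' h6 h3 hw'Γ)
      · -- w' ≤ w ≤ t
        have hwΓ : w ∈ Γ := by
          rcases hw with h | h
          · exact h
          · exact absurd h (scl_ne_root h6 (Ne.symm hne'))
        exact hne' (h2 w h6 (htw.trans h4) hwΓ).symm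
    · exact h2 u h3 h4 h5

/-- The potential. -/
def sclPhi (T : PTree n) (Γ : Finset (Fin n)) : ℝ :=
  ∑ w ∈ univ.filter (fun w => SclTop Γ w), ((T.PTop Γ w).card : ℝ) ^ 2

theorem scl_phi_nonneg (T : PTree n) (Γ : Finset (Fin n)) : 0 ≤ sclPhi T Γ := by
  unfold sclPhi
  positivity

theorem scl_phi_empty (T : PTree n) : sclPhi T ∅ ≤ (n : ℝ) ^ 2 := by
  unfold sclPhi
  rcases Nat.eq_zero_or_pos n with h0 | h0
  · subst h0
    simp
  · have h1 : (univ.filter fun w : Fin n => SclTop ∅ w) = {⟨0, h0⟩} := by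
      ext w
      simp only [mem_filter, mem_univ, true_and, mem_singleton, SclTop, notMem_empty, false_or]
      constructor
      · intro h
        exact Fin.ext h
      · rintro rfl
        rfl
    rw [h1, sum_singleton]
    have h2 : (T.PTop ∅ ⟨0, h0⟩).card ≤ n := by
      have := card_le_univ (T.PTop ∅ ⟨0, h0⟩)
      simpa using this
    have h3 : ((T.PTop ∅ ⟨0, h0⟩).card : ℝ) ≤ n := by exact_mod_cast h2
    gcongr

theorem scl_phi_step {T : PTree n} {Γ : Finset (Fin n)} {w t : Fin n} (htw : T.Le w t)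
    (hne : t ≠ w) (htΓ : ¬ SclTop Γ t) (htQ : t ∈ T.PTop Γ w) (hw : SclTop Γ w) :
    sclPhi T (insert t Γ) = sclPhi T Γ - 2 * ((T.PTop Γ w ∩ T.sub t).card : ℝ) *
      (((T.PTop Γ w).card : ℝ) - ((T.PTop Γ w ∩ T.sub t).card : ℝ)) := by
  have htΓ' : t ∉ Γ := fun h => htΓ (Or.inl h)
  have h1 : (univ.filter fun u : Fin n => SclTop (insert t Γ) u) =
      insert t (univ.filter fun u : Fin n => SclTop Γ u) := by
    ext u
    rw [mem_insert, mem_filter, mem_filter]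
    simp only [mem_univ, true_and, SclTop, mem_insert]
    tauto
  have h2 : t ∉ (univ.filter fun u : Fin n => SclTop Γ u) := by simpa using htΓ
  have h3 : w ∈ (univ.filter fun u : Fin n => SclTop Γ u) := by simpa using hw
  unfold sclPhi
  rw [h1, sum_insert h2, ← add_sum_erase _ _ h3, ← add_sum_erase _ _ h3,
    scl_ptop_t htw hne htΓ' htQ, scl_ptop_w htw hne]
  have h4 : ∑ x ∈ (univ.filter fun u : Fin n => SclTop Γ u).erase w,
      ((T.PTop (insert t Γ) x).card : ℝ) ^ 2 =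
      ∑ x ∈ (univ.filter fun u : Fin n => SclTop Γ u).erase w, ((T.PTop Γ x).card : ℝ) ^ 2 := by
    refine sum_congr rfl fun x hx => ?_
    rw [mem_erase, mem_filter] at hx
    rw [scl_ptop_other htw htΓ htQ hw hx.2.2 hx.1]
  rw [h4]
  have h5 : ((T.PTop Γ w \ T.sub t).card : ℝ) =
      ((T.PTop Γ w).card : ℝ) - ((T.PTop Γ w ∩ T.sub t).card : ℝ) := by
    have := card_sdiff_add_card_inter (T.PTop Γ w) (T.sub t)
    have h6 : ((T.PTop Γ w \ T.sub t).card : ℝ) + ((T.PTop Γ w ∩ T.sub t).card : ℝ) =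
      ((T.PTop Γ w).card : ℝ) := by exact_mod_cast this
    linarith
  rw [h5]
  ring

/-- The separation properties. -/
structure SclSep (T : PTree n) (d : ℕ) (M₀ Γ : Finset (Fin n)) : Prop where
  far : ∀ w ∈ Γ, ∀ m, (m ∈ M₀ ∨ (m : ℕ) = 0) → w ∉ T.ball d m
  sep : ∀ w ∈ Γ, ∀ w' ∈ Γ, w ≠ w' → w' ∉ T.ball d w

/-- One step: a large piece is cut. -/
theorem scl_step {T : PTree n} {Δ d : ℕ} {κ₀ k : ℕ} {δ : ℝ} (hΔ : T.Deg Δ) (hδ : 0 < δ)
    {M₀ Γ : Finset (Fin n)} (hM : M₀.card ≤ κ₀) (hk : Γ.card ≤ k) (hs : SclSep T d M₀ Γ)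
    {w : Fin n} (hw : SclTop Γ w) (hQ : δ * (n : ℝ) < ((T.PTop Γ w).card : ℝ))
    (hn : 8 * ((Δ : ℝ) + 1) ^ 2 * ((κ₀ + 2) * (k + 1) * (Δ + 2) ^ d) + 2 ≤ δ * (n : ℝ)) :
    ∃ t, t ∉ Γ ∧ SclSep T d M₀ (insert t Γ) ∧
      sclPhi T (insert t Γ) ≤ sclPhi T Γ - δ ^ 2 /
        (8 * ((Δ : ℝ) + 1) ^ 2 * ((κ₀ + 2) * (Δ + 2) ^ d)) * (n : ℝ) ^ 2 * (1 / ((k : ℝ) + 1)) := by
  have hn0 : 0 < n := Nat.lt_of_le_of_lt (Nat.zero_le _) w.isLt
  set r : Fin n := ⟨0, hn0⟩ with hr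
  set Q := T.PTop Γ w with hQdef
  set Z : Finset (Fin n) := (insert r (M₀ ∪ Γ)).biUnion (T.ball d) with hZ
  have hZc : Z.card ≤ (κ₀ + k + 1) * (Δ + 2) ^ d := by
    have h1 : Z.card ≤ (insert r (M₀ ∪ Γ)).card * (Δ + 2) ^ d :=
      card_biUnion_le_card_mul _ _ _ (fun u _ => PTree.card_ball T hΔ d u)
    have h2 : (insert r (M₀ ∪ Γ)).card ≤ κ₀ + k + 1 := by
      have := card_insert_le r (M₀ ∪ Γ)
      have := card_union_le M₀ Γ
      omega
    exact h1.trans (Nat.mul_le_mul_right _ h2)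
  have hZc' : (Z.card : ℝ) + 1 ≤ (κ₀ + 2) * (k + 1) * (Δ + 2) ^ d := by
    have h1 : (Z.card : ℝ) ≤ (κ₀ + k + 1) * (Δ + 2) ^ d := by exact_mod_cast hZc
    have h2 : (1 : ℝ) ≤ (Δ + 2) ^ d := by
      apply one_le_pow₀
      have : (0 : ℝ) ≤ Δ := Nat.cast_nonneg _
      linarith
    have h3 : ((κ₀ : ℝ) + k + 1) + 1 ≤ (κ₀ + 2) * (k + 1) := by
      have h4 : (0 : ℝ) ≤ κ₀ := Nat.cast_nonneg _
      have h5 : (0 : ℝ) ≤ k := Nat.cast_nonneg _
      nlinarith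
    calc (Z.card : ℝ) + 1 ≤ (κ₀ + k + 1) * (Δ + 2) ^ d + (Δ + 2) ^ d := by linarith
      _ = (((κ₀ : ℝ) + k + 1) + 1) * (Δ + 2) ^ d := by ring
      _ ≤ (κ₀ + 2) * (k + 1) * (Δ + 2) ^ d := by gcongr
  have hZmark : ∀ m, (m ∈ M₀ ∨ m ∈ Γ ∨ (m : ℕ) = 0) → ∀ u ∈ T.ball d m, u ∈ Z := by
    intro m hm u hu
    rw [hZ, mem_biUnion]
    refine ⟨m, ?_, hu⟩
    rw [mem_insert, mem_union]
    rcases hm with h | h | h
    · exact Or.inr (Or.inl h)
    · exact Or.inr (Or.inr h)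
    · exact Or.inl (Fin.ext h)
  set g : Fin n → ℤ := fun v => if v ∈ Q then 1 else 0 with hg
  have hg1 : ∀ v, |g v| ≤ 1 := by
    intro v
    simp only [hg]
    split_ifs <;> simp
  have hgs : ∀ A : Finset (Fin n), ∑ x ∈ A, g x = ((A ∩ Q).card : ℤ) := by
    intro A
    simp only [hg]
    rw [sum_ite_mem, sum_const, nsmul_eq_mul, mul_one]
  have hQsub : T.sub w ∩ Q = Q := by
    rw [inter_eq_right]
    intro v hv
    exact PTree.mem_sub.2 (scl_mem_ptop.1 hv).1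
  have hAlt : T.Alt T.col (fun _ => false) Z := by
    intro v hv _
    right
    rw [PTree.col_par T v hv]
    simp
  set θ : ℤ := ((Q.card / 2 : ℕ) : ℤ) with hθ
  have hq2 : (Q.card : ℝ) / 2 - 1 / 2 ≤ ((Q.card / 2 : ℕ) : ℝ) := by
    have : Q.card ≤ 2 * (Q.card / 2) + 1 := by omega
    have h' : (Q.card : ℝ) ≤ 2 * ((Q.card / 2 : ℕ) : ℝ) + 1 := by exact_mod_cast this
    linarith
  have hθ1 : θ ≤ ∑ x ∈ T.sub w, g x := by
    rw [hgs, hQsub, hθ]
    exact_mod_cast Nat.div_le_self _ _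
  have hD : (0 : ℝ) < ((Δ : ℝ) + 1) ^ 2 := by positivity
  have hθ2 : 4 * ((Δ : ℤ) + 1) ^ 2 * (Z.card + 1) ≤ θ := by
    have : 4 * ((Δ : ℝ) + 1) ^ 2 * (Z.card + 1) ≤ ((Q.card / 2 : ℕ) : ℝ) := by
      have h1 : 4 * ((Δ : ℝ) + 1) ^ 2 * (Z.card + 1) ≤
          4 * ((Δ : ℝ) + 1) ^ 2 * ((κ₀ + 2) * (k + 1) * (Δ + 2) ^ d) := by gcongr
      linarith
    rw [hθ]
    exact_mod_cast this
  obtain ⟨b, t, htw, htZ, hbt, htops, hbig⟩ :=
    descend T hΔ g hg1 T.col (fun _ => false) Z hAlt true w θ hθ1 hθ2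
  have hθpos : 0 < θ := by
    have : 0 < 4 * ((Δ : ℤ) + 1) ^ 2 * (Z.card + 1) := by positivity
    linarith
  have hb : b = false := by
    by_contra hb
    have hb' : b = true := by simpa using hb
    subst hb'
    rw [dl_sum_item_true] at hbig
    have : T.far (fun _ => false) t = ∅ := by
      unfold PTree.far
      simp
    rw [this, sum_empty, mul_zero] at hbig
    linarith
  subst hb
  rw [dl_item_false, hgs] at hbig
  have htops' : ((T.sub t ∩ Q).card : ℤ) ≤ θ := by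
    rw [← hgs]
    apply htops t
    simp [PTree.tops]
  have htw' : T.Le w t := PTree.mem_sub.1 htw
  have hne : t ≠ w := (hbt rfl).1
  have htop : ¬ SclTop Γ t := by
    rintro (h | h)
    · exact htZ (hZmark t (Or.inr (Or.inl h)) t (PTree.self_mem_ball T d t))
    · exact htZ (hZmark t (Or.inr (Or.inr h)) t (PTree.self_mem_ball T d t))
  have hxpos : 0 < (T.sub t ∩ Q).card := by
    by_contra h
    have h' : (T.sub t ∩ Q).card = 0 := by omega
    rw [h'] at hbig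
    simp at hbig
    linarith
  obtain ⟨v₀, hv₀⟩ := card_pos.1 hxpos
  rw [mem_inter, PTree.mem_sub] at hv₀
  have htQ : t ∈ T.PTop Γ w := scl_top_mem htw' hv₀.2 hv₀.1
  have hQn : (Q.card : ℝ) ≤ n := by
    have := card_le_univ Q
    rw [Fintype.card_fin] at this
    exact_mod_cast this
  refine ⟨t, fun h => htop (Or.inl h), ⟨?_, ?_⟩, ?_⟩
  · intro u hu m hm
    rcases mem_insert.1 hu with rfl | hu
    · intro hmem
      apply htZ
      refine hZmark m ?_ _ hmem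
      tauto
    · exact hs.far u hu m hm
  · intro u hu u' hu' huu
    rcases mem_insert.1 hu with h1 | h1
    · rcases mem_insert.1 hu' with h2 | h2
      · exact absurd (h1.trans h2.symm) huu
      · intro hmem
        apply htZ
        rw [← h1]
        exact hZmark u' (Or.inr (Or.inl h2)) _ (PTree.mem_ball_comm.1 hmem)
    · rcases mem_insert.1 hu' with h2 | h2
      · intro hmem
        apply htZ
        rw [← h2]
        exact hZmark u (Or.inr (Or.inl h1)) _ hmem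
      · exact hs.sep u h1 u' h2 huu
  · rw [scl_phi_step htw' hne htop htQ hw, ← hQdef]
    have hcomm : (Q ∩ T.sub t).card = (T.sub t ∩ Q).card := by rw [inter_comm]
    rw [hcomm]
    set x : ℝ := ((T.sub t ∩ Q).card : ℝ) with hx
    set q : ℝ := (Q.card : ℝ) with hq
    have hx1 : x ≤ q / 2 := by
      have h1 : (T.sub t ∩ Q).card ≤ Q.card / 2 := by
        rw [hθ] at htops'
        exact_mod_cast htops'
      have h2 : 2 * (T.sub t ∩ Q).card ≤ Q.card := by omega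
      have h3 : 2 * x ≤ q := by
        rw [hx, hq]
        exact_mod_cast h2
      linarith
    have hbig' : ((Q.card / 2 : ℕ) : ℝ) ≤ 2 * ((Δ : ℝ) + 1) ^ 2 * (Z.card + 1) * x := by
      have h1 : (((Q.card / 2 : ℕ) : ℤ) : ℝ) ≤
          ((2 * ((Δ : ℤ) + 1) ^ 2 * (Z.card + 1) * ((T.sub t ∩ Q).card : ℤ) : ℤ) : ℝ) := by
        rw [hθ] at hbig
        exact Int.cast_le.2 hbig
      push_cast at h1
      rw [hx]
      exact_mod_cast h1
    have hxp : 0 < x := by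
      rw [hx]
      exact_mod_cast hxpos
    have hk1 : (0 : ℝ) < (k : ℝ) + 1 := by positivity
    have hCpos : (0 : ℝ) < (κ₀ + 2) * (Δ + 2) ^ d := by positivity
    have hq4 : q / 4 ≤ 2 * ((Δ : ℝ) + 1) ^ 2 * ((κ₀ + 2) * (k + 1) * (Δ + 2) ^ d) * x := by
      have h1 : 2 * ((Δ : ℝ) + 1) ^ 2 * (Z.card + 1) * x ≤
          2 * ((Δ : ℝ) + 1) ^ 2 * ((κ₀ + 2) * (k + 1) * (Δ + 2) ^ d) * x := by gcongr
      have h2 : 2 ≤ q := by
        have : (0 : ℝ) ≤ 8 * ((Δ : ℝ) + 1) ^ 2 * ((κ₀ + 2) * (k + 1) * (Δ + 2) ^ d) := by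
          positivity
        linarith
      linarith
    have hdn : 0 ≤ δ * (n : ℝ) := by positivity
    have hmain : δ ^ 2 / (8 * ((Δ : ℝ) + 1) ^ 2 * ((κ₀ + 2) * (Δ + 2) ^ d)) * (n : ℝ) ^ 2 *
        (1 / ((k : ℝ) + 1)) ≤ x * q := by
      have h1 : δ ^ 2 / (8 * ((Δ : ℝ) + 1) ^ 2 * ((κ₀ + 2) * (Δ + 2) ^ d)) * (n : ℝ) ^ 2 *
          (1 / ((k : ℝ) + 1)) = (δ * n) ^ 2 /
          (8 * ((Δ : ℝ) + 1) ^ 2 * ((κ₀ + 2) * (k + 1) * (Δ + 2) ^ d)) := by
        field_simp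
      rw [h1, div_le_iff₀ (by positivity)]
      have h2 : (δ * n) ^ 2 ≤ q ^ 2 := by gcongr
      have h3 : q * q ≤ q * (4 * (2 * ((Δ : ℝ) + 1) ^ 2 *
          ((κ₀ + 2) * (k + 1) * (Δ + 2) ^ d) * x)) := by
        apply mul_le_mul_of_nonneg_left _ (by positivity)
        linarith
      nlinarith
    nlinarith

/-- Module SCL. -/
theorem x3_scl : StSCL := by
  intro Δ d δ κ₀ hδ
  set c : ℝ := δ ^ 2 / (8 * ((Δ : ℝ) + 1) ^ 2 * ((κ₀ + 2) * (Δ + 2) ^ d)) with hc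
  have hc0 : 0 < c := by positivity
  obtain ⟨M, hM⟩ : ∃ M : ℕ, 1 / c < ∑ i ∈ range M, 1 / ((i : ℝ) + 1) := by
    have := (Real.tendsto_sum_range_one_div_nat_succ_atTop.eventually_gt_atTop (1 / c)).exists
    exact this
  obtain ⟨N, hN⟩ := exists_nat_ge
    ((8 * ((Δ : ℝ) + 1) ^ 2 * ((κ₀ + 2) * (M + 1) * (Δ + 2) ^ d) + 2) / δ)
  refine ⟨M, N + 1, fun n T hn hΔ M₀ hM₀ => ?_⟩
  by_contra hcon
  push Not at hcon
  have hn0 : 0 < n := by omega
  have hnR : (0 : ℝ) < n := by exact_mod_cast hn0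
  have hkey : ∀ k : ℕ, k ≤ M → ∃ Γ : Finset (Fin n), Γ.card ≤ k ∧ SclSep T d M₀ Γ ∧
      sclPhi T Γ ≤ (n : ℝ) ^ 2 - c * (n : ℝ) ^ 2 * ∑ i ∈ range k, 1 / ((i : ℝ) + 1) := by
    intro k
    induction k with
    | zero =>
      intro _
      refine ⟨∅, by simp, ⟨by simp, by simp⟩, ?_⟩
      have := scl_phi_empty T
      simpa using this
    | succ k ih =>
      intro hk
      obtain ⟨Γ, h1, h2, h3⟩ := ih (by omega)
      obtain ⟨w, hw, hQ⟩ := hcon Γ (by omega) h2.far h2.sep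
      have hlarge : 8 * ((Δ : ℝ) + 1) ^ 2 * ((κ₀ + 2) * (k + 1) * (Δ + 2) ^ d) + 2 ≤
          δ * (n : ℝ) := by
        have h4 : (8 * ((Δ : ℝ) + 1) ^ 2 * ((κ₀ + 2) * (M + 1) * (Δ + 2) ^ d) + 2) / δ ≤ n := by
          refine hN.trans ?_
          exact_mod_cast (by omega : N ≤ n)
        rw [div_le_iff₀ hδ] at h4
        have h5 : (k : ℝ) ≤ M := by exact_mod_cast (by omega : k ≤ M)
        have h6 : 8 * ((Δ : ℝ) + 1) ^ 2 * ((κ₀ + 2) * (k + 1) * (Δ + 2) ^ d) ≤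
          8 * ((Δ : ℝ) + 1) ^ 2 * ((κ₀ + 2) * (M + 1) * (Δ + 2) ^ d) := by gcongr
        linarith
      obtain ⟨t, h4, h5, h6⟩ := scl_step hΔ hδ hM₀ h1 h2 hw hQ hlarge
      refine ⟨insert t Γ, ?_, h5, ?_⟩
      · rw [card_insert_of_notMem h4]
        omega
      · rw [sum_range_succ]
        rw [← hc] at h6
        nlinarith
  obtain ⟨Γ, -, -, h3⟩ := hkey M le_rfl
  have h4 := scl_phi_nonneg T Γ
  have h5 : 1 < c * ∑ i ∈ range M, 1 / ((i : ℝ) + 1) := by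
    rw [div_lt_iff₀ hc0] at hM
    linarith
  have h6 : (n : ℝ) ^ 2 * 1 < (n : ℝ) ^ 2 * (c * ∑ i ∈ range M, 1 / ((i : ℝ) + 1)) :=
    mul_lt_mul_of_pos_left h5 (by positivity)
  linarith

end

end OT
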